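import Pool.Agent.Run7.h567.PD.Cls
import Pool.Agent.Run7.h354.PD.BURN
import Pool.Agent.Run7.h354.PD.ANN
import Pool.Agent.Run7.h192.PD.LI
import Pool.Agent.Run7.h68.PD.FOUR
import Pool.Agent.Run7.h68.PD.SYM
import Pool.Agent.Run7.h404.PD.TENS
import Pool.Agent.Run7.h404.PD.PROJ
import Pool.Agent.Run7.h404.PD.PROJ2
import Pool.Agent.Run7.h596.PD.PROJ1
import Pool.Agent.Run7.h596.PD.EXT
import Pool.Agent.Run7.h863.PD.FO
import Pool.Agent.Run7.h993.PD.MEAS

/-!
# Project PD: assembly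
-/

set_option autoImplicit false

namespace Run7.h567.PD

open Matrix Polynomial MeasureTheory Run7.h567.GO
open NumberField Filter Topology IsDedekindDomain Pool.Agent.W401.Cheb

theorem li : S_LI := Run7.h192.PD.t_LI Pool.Agent.Run7.h354.PD.t_BURN
  (Pool.Agent.Run7.h354.PD.t_ANN Pool.Agent.Run7.h354.PD.t_BURN)

theorem proj : S_PROJ := Pool.Agent.Run7.h404.PD.t_PROJ Run7.h596.PD.t_PROJ1
  Pool.Agent.Run7.h404.PD.t_PROJ2 Run7.h68.PD.t_SYM

theorem fo : S_FO := Pool.Agent.Run7.h863.PD.t_FO li Run7.h68.PD.t_SYM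

variable {K : Type} [Field K] [NumberField K] {E : Type} [Field E] [CharZero E] [IsAlgClosed E]
  [TopologicalSpace E] [IsTopologicalRing E] [T2Space E]

/-- **One common Frobenius eigenvalue.** -/
theorem one_eigenvalue {V W : MRep (GK K) E 2}
    (hVc : Continuous fun g => (V g : Matrix (Fin 2) (Fin 2) E))
    (hWc : Continuous fun g => (W g : Matrix (Fin 2) (Fin 2) E)) (hV : StrongIrred V) :
    List.TFAE [
      CommonEigenvalue V W,
      ∃ δ : ℝ, 0 < δ ∧ UpperDensity K δ fun g => (V g).charpoly = (W g).charpoly,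
      ∃ ψ : GK K →* E, FinOrd ψ ∧ TwistOf V W ψ] := by
  have h := tfae li Run7.h68.PD.t_SYM Run7.h68.PD.t_FOUR Pool.Agent.Run7.h404.PD.t_TENS proj
    Run7.h596.PD.t_EXT fo Run7.h993.PD.t_MEAS hVc hWc hV
  simp only [FinOrd, and_assoc]
  exact h

/-- **Classes of representations closed under twists.** -/
theorem class_one {𝓜 : MRep (GK K) E 2 → Prop}
    (hcont : ∀ W, 𝓜 W → Continuous fun g => (W g : Matrix (Fin 2) (Fin 2) E))
    (htw : TwistClosed 𝓜) {V : MRep (GK K) E 2}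
    (hVc : Continuous fun g => (V g : Matrix (Fin 2) (Fin 2) E)) (hV : StrongIrred V) :
    𝓜 V ↔ ∃ W, 𝓜 W ∧ CommonEigenvalue V W :=
  class_iff li Run7.h68.PD.t_SYM Run7.h68.PD.t_FOUR Pool.Agent.Run7.h404.PD.t_TENS proj
    Run7.h596.PD.t_EXT fo Run7.h993.PD.t_MEAS hcont htw hVc hV

end Run7.h567.PD
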