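import Pool.Agent.Run7.h567.PD.Iface
import Pool.Agent.Run7.h300.GO.PT
import Pool.Agent.Run7.h930.GO.FIB

/-!
# Project PD: the algebraic part from the pieces
-/

set_option autoImplicit false

namespace Run7.h567.PD

open Matrix Polynomial MeasureTheory Run7.h567.GO

section algebra

variable {Γ : Type} [Group Γ] {E : Type} [Field E]

theorem bigAlg_noetherian {n m : ℕ} (ρ : MRep Γ E n) (σ : MRep Γ E m) :
    IsNoetherianRing (bigAlg ρ σ) := by
  have : Algebra.FiniteType E (bigAlg ρ σ) :=
    (Subalgebra.fg_iff_finiteType _).mp (Run7.h930.GO.FIB.fg_big ρ σ)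
  exact Algebra.FiniteType.isNoetherianRing E _

theorem bigAlg_translate {n m : ℕ} (ρ : MRep Γ E n) (σ : MRep Γ E m) (f : Γ → E)
    (hf : f ∈ bigAlg ρ σ) (g : Γ) : (fun x => f (g * x)) ∈ bigAlg ρ σ :=
  Run7.h300.GO.trans_mem ρ σ g ⟨f, hf⟩

theorem bigAlg_continuous [TopologicalSpace Γ] [IsTopologicalGroup Γ] [TopologicalSpace E]
    [IsTopologicalRing E] {n m : ℕ} (ρ : MRep Γ E n) (σ : MRep Γ E m)
    (hρ : Continuous fun g => (ρ g : Matrix (Fin n) (Fin n) E))
    (hσ : Continuous fun g => (σ g : Matrix (Fin m) (Fin m) E)) (f : Γ → E)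
    (hf : f ∈ bigAlg ρ σ) : Continuous f := by
  rw [Run7.h300.GO.big_eq] at hf
  induction hf using Algebra.adjoin_induction with
  | mem x hx =>
    rcases hx with hx | hx <;> rcases Run7.h300.GO.gens_cases hx with ⟨i, j, rfl⟩ | ⟨i, j, rfl⟩
    · exact hρ.matrix_elem i j
    · exact (hρ.comp continuous_inv).matrix_elem i j
    · exact hσ.matrix_elem i j
    · exact (hσ.comp continuous_inv).matrix_elem i j
  | algebraMap r => exact continuous_const
  | add x y _ _ hx hy => exact hx.add hy
  | mul x y _ _ hx hy => exact hx.mul hy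

theorem F_mem (V W : MRep Γ E 2) : F V W ∈ bigAlg V W := by
  have h1 : ∀ i j, ent V i j ∈ bigAlg V W := (Run7.h300.GO.has_left V W).1
  have h2 : ∀ i j, ent W i j ∈ bigAlg V W := (Run7.h300.GO.has_right V W).1
  have e : F V W = (ent W 0 0 * ent W 1 1 - ent W 0 1 * ent W 1 0) * (ent V 0 0 + ent V 1 1) ^ 2 -
      ((ent V 0 0 * ent V 1 1 - ent V 0 1 * ent V 1 0) +
        (ent W 0 0 * ent W 1 1 - ent W 0 1 * ent W 1 0)) * (ent V 0 0 + ent V 1 1) *
        (ent W 0 0 + ent W 1 1) +
      (ent V 0 0 * ent V 1 1 - ent V 0 1 * ent V 1 0) * (ent W 0 0 + ent W 1 1) ^ 2 +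
      ((ent V 0 0 * ent V 1 1 - ent V 0 1 * ent V 1 0) -
        (ent W 0 0 * ent W 1 1 - ent W 0 1 * ent W 1 0)) ^ 2 := by
    funext g
    simp only [F, Matrix.det_fin_two, Matrix.trace_fin_two, Pi.add_apply, Pi.sub_apply,
      Pi.mul_apply, Pi.pow_apply, ent]
  rw [e]
  have d1 := sub_mem (mul_mem (h1 0 0) (h1 1 1)) (mul_mem (h1 0 1) (h1 1 0))
  have d2 := sub_mem (mul_mem (h2 0 0) (h2 1 1)) (mul_mem (h2 0 1) (h2 1 0))
  have t1 := add_mem (h1 0 0) (h1 1 1)
  have t2 := add_mem (h2 0 0) (h2 1 1)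
  exact add_mem (add_mem (sub_mem (mul_mem d2 (pow_mem t1 2))
    (mul_mem (mul_mem (add_mem d1 d2) t1) t2)) (mul_mem d1 (pow_mem t2 2)))
    (pow_mem (sub_mem d1 d2) 2)

/-- the trace of the symmetric square -/
theorem trace_sq (A : Matrix (Fin 2) (Fin 2) E) : (sq A).trace = A.trace ^ 2 - A.det := by
  rw [Matrix.trace_fin_three, Matrix.trace_fin_two, Matrix.det_fin_two]
  simp only [sq, Matrix.of_apply, Matrix.cons_val', Matrix.cons_val_zero, Matrix.cons_val_one,
    Matrix.cons_val_two, Matrix.cons_val_fin_one]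
  simp
  ring

theorem trace_tens {n m : ℕ} (V : MRep Γ E n) (W : MRep Γ E m) (g : Γ) :
    (tens V W g).trace = (V g).trace * (W g).trace := by
  change ((kroneckerMap (· * ·) (V g) (W g)).submatrix finProdFinEquiv.symm
    finProdFinEquiv.symm).trace = _
  rw [← Matrix.trace_kronecker]
  unfold Matrix.trace
  exact Fintype.sum_equiv finProdFinEquiv.symm _ _ fun i => rfl

/-- a character as a representation of dimension one -/
def chr (χ : Γ →* E) : MRep Γ E 1 where
  toFun g := χ g • (1 : Matrix (Fin 1) (Fin 1) E)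
  map_one' := by rw [map_one, one_smul]
  map_mul' g h := by rw [map_mul, smul_mul_smul_comm, mul_one]

/-- **The identity.** -/
theorem F_eq (V W : MRep Γ E 2) (g : Γ) :
    F V W g = (tw (detR W) (sym2 V) g).trace + (tw (detR V) (sym2 W) g).trace -
      (tw (detR V) (tens V W) g).trace - (tw (detR W) (tens V W) g).trace +
      (chr (detR V * detR V) g).trace + (chr (detR W * detR W) g).trace := by
  have e1 : (tw (detR W) (sym2 V) g).trace = (W g).det * ((V g).trace ^ 2 - (V g).det) := by
    change ((W g).det • sq (V g)).trace = _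
    rw [Matrix.trace_smul, trace_sq, smul_eq_mul]
  have e2 : (tw (detR V) (sym2 W) g).trace = (V g).det * ((W g).trace ^ 2 - (W g).det) := by
    change ((V g).det • sq (W g)).trace = _
    rw [Matrix.trace_smul, trace_sq, smul_eq_mul]
  have e3 : (tw (detR V) (tens V W) g).trace = (V g).det * ((V g).trace * (W g).trace) := by
    change ((V g).det • tens V W g).trace = _
    rw [Matrix.trace_smul, trace_tens, smul_eq_mul]
  have e4 : (tw (detR W) (tens V W) g).trace = (W g).det * ((V g).trace * (W g).trace) := by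
    change ((W g).det • tens V W g).trace = _
    rw [Matrix.trace_smul, trace_tens, smul_eq_mul]
  have e5 : ∀ χ : Γ →* E, (chr χ g).trace = χ g := by
    intro χ
    change (χ g • (1 : Matrix (Fin 1) (Fin 1) E)).trace = _
    rw [Matrix.trace_smul, Matrix.trace_one]
    simp
  rw [e1, e2, e3, e4, e5, e5]
  change F V W g = _ + (V g).det * (V g).det + (W g).det * (W g).det
  unfold F
  ring

end algebra

section coset

variable {Γ : Type} [Group Γ] {E : Type} [Field E]

/-- the dimensions of the other representations -/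
def kk : Fin 5 → ℕ
  | 0 => 3
  | 1 => 4
  | 2 => 4
  | 3 => 1
  | 4 => 1

/-- the other representations -/
def TT (V W : MRep Γ E 2) : ∀ j : Fin 5, MRep Γ E (kk j)
  | 0 => tw (detR V) (sym2 W)
  | 1 => tw (detR V) (tens V W)
  | 2 => tw (detR W) (tens V W)
  | 3 => chr (detR V * detR V)
  | 4 => chr (detR W * detR W)

/-- the signs -/
def sg : Fin 5 → E
  | 0 => -1
  | 1 => 1
  | 2 => 1
  | 3 => -1
  | 4 => -1

theorem not_subQ_one {S : MRep Γ E 3} {T : MRep Γ E 1} : ¬ SubQ S T := by
  rintro ⟨U, hU, π, hπ, -⟩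
  have h1 := LinearMap.finrank_le_finrank_of_surjective (f := π) hπ
  have h2 := Submodule.finrank_le U
  simp only [Module.finrank_fintype_fun_eq_card, Fintype.card_fin] at h1 h2
  omega

theorem twist_of_coset [CharZero E] [IsAlgClosed E] (hLI : S_LI) (hSYM : S_SYM) (hFOUR : S_FOUR)
    (hTENS : S_TENS) (hPROJ : S_PROJ) (V W : MRep Γ E 2) (H : Subgroup Γ) [H.FiniteIndex]
    (z : Γ) (hV : SI V) (hF : ∀ h ∈ H, F V W (h * z) = 0) :
    ∃ ψ : H →* E, TwistOf (res V H) (res W H) ψ := by
  have hVH : SI (res V H) := hV.res H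
  have hirr : Irred (tw (detR (res W H)) (sym2 (res V H))) := hSYM H E (res V H) _ hVH
  by_cases hsub : ∃ j : Fin 5, SubQ (tw (detR (res W H)) (sym2 (res V H)))
      (TT (res V H) (res W H) j)
  · obtain ⟨j, hj⟩ := hsub
    have hVi : Irred (res V H) := hV H inferInstance
    fin_cases j
    · exact hPROJ H E (res V H) (res W H) _ _ hVH hj
    · exact hTENS H E (res V H) (res W H) _ hVi (hFOUR H E _ _ hj)
    · exact hTENS H E (res V H) (res W H) _ hVi (hFOUR H E _ _ hj)
    · exact absurd hj not_subQ_one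
    · exact absurd hj not_subQ_one
  · exfalso
    push Not at hsub
    have key := hLI H E 3 (tw (detR (res W H)) (sym2 (res V H))) 5 kk (TT (res V H) (res W H))
      hirr hsub (tw (detR W) (sym2 V) z) (fun j => sg j • TT V W j z) (by
        intro h
        have h1 := hF h.1 h.2
        rw [F_eq] at h1
        have e : ∀ {n : ℕ} (T : MRep Γ E n), (T (h.1 * z)).trace = (T h.1 * T z).trace :=
          fun T => by rw [map_mul]
        rw [e, e, e, e, e, e] at h1
        rw [Fin.sum_univ_five]
        change ((tw (detR W) (sym2 V)) h.1 * (tw (detR W) (sym2 V)) z).trace =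
          ((tw (detR V) (sym2 W)) h.1 * ((-1 : E) • (tw (detR V) (sym2 W)) z)).trace +
          ((tw (detR V) (tens V W)) h.1 * ((1 : E) • (tw (detR V) (tens V W)) z)).trace +
          ((tw (detR W) (tens V W)) h.1 * ((1 : E) • (tw (detR W) (tens V W)) z)).trace +
          ((chr (detR V * detR V)) h.1 * ((-1 : E) • (chr (detR V * detR V)) z)).trace +
          ((chr (detR W * detR W)) h.1 * ((-1 : E) • (chr (detR W * detR W)) z)).trace
        simp only [Matrix.mul_smul, Matrix.trace_smul, smul_eq_mul]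
        linear_combination h1)
    have h2 : (tw (detR W) (sym2 V) z) * (tw (detR W) (sym2 V) z⁻¹) = 1 := by
      rw [← map_mul, mul_inv_cancel, map_one]
    rw [key, zero_mul] at h2
    exact zero_ne_one h2

end coset

end Run7.h567.PD
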