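import Pool.Agent.Run7.h567.PD.Iff

/-!
# Project PD: classes of representations closed under twists
-/

set_option autoImplicit false

namespace Run7.h567.PD

open Matrix Polynomial MeasureTheory Run7.h567.GO
open NumberField Filter Topology IsDedekindDomain Pool.Agent.W401.Cheb

/-- a continuous character of finite order -/
def FinOrd {Γ : Type} [Group Γ] [TopologicalSpace Γ] {E : Type} [Field E] [TopologicalSpace E]
    (ψ : Γ →* E) : Prop :=
  Continuous ψ ∧ ∃ N : ℕ, 0 < N ∧ ∀ g, ψ g ^ N = 1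

/-- the class `𝓜` is closed under twists by characters of finite order (and conjugation) -/
def TwistClosed {Γ : Type} [Group Γ] [TopologicalSpace Γ] {E : Type} [Field E] [TopologicalSpace E]
    (𝓜 : MRep Γ E 2 → Prop) : Prop :=
  ∀ (V W : MRep Γ E 2) (ψ : Γ →* E), FinOrd ψ → TwistOf V W ψ → 𝓜 V → 𝓜 W

/-- at a set of places of positive upper density `V` and `W` have a common Frobenius eigenvalue -/
def CommonEigenvalue {K : Type} [Field K] [NumberField K] {E : Type} [Field E]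
    (V W : MRep (GK K) E 2) : Prop :=
  ∃ δ : ℝ, 0 < δ ∧
    UpperDensity K δ fun g => ∃ r, (V g).charpoly.IsRoot r ∧ (W g).charpoly.IsRoot r

theorem TwistOf.symm' {Γ : Type} [Group Γ] {E : Type} [Field E] {V W : MRep Γ E 2} {ψ : Γ →* E}
    (h : TwistOf V W ψ) {N : ℕ} (hN : 0 < N) (hψ : ∀ g, ψ g ^ N = 1) :
    TwistOf W V (ψ ^ (N - 1)) := by
  obtain ⟨P, hP, h⟩ := h
  have hPu : IsUnit P.det := isUnit_iff_ne_zero.2 hP
  refine ⟨P⁻¹, ?_, fun g => ?_⟩
  · rw [Matrix.det_nonsing_inv, Ring.inverse_eq_inv']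
    exact inv_ne_zero hP
  · have h1 := h g
    have h2 : (ψ ^ (N - 1)) g * ψ g = 1 := by
      rw [MonoidHom.pow_apply, ← pow_succ, Nat.sub_add_cancel hN, hψ]
    calc V g * P⁻¹ = (((ψ ^ (N - 1)) g * ψ g) • (P⁻¹ * (P * V g))) * P⁻¹ := by
          rw [h2, one_smul, ← mul_assoc, Matrix.nonsing_inv_mul P hPu, one_mul]
      _ = ((ψ ^ (N - 1)) g • (P⁻¹ * (ψ g • (P * V g)))) * P⁻¹ := by
          rw [Matrix.mul_smul, smul_smul]
      _ = ((ψ ^ (N - 1)) g • (P⁻¹ * (W g * P))) * P⁻¹ := by rw [h1]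
      _ = (ψ ^ (N - 1)) g • (P⁻¹ * W g) := by
          rw [smul_mul_assoc, mul_assoc, mul_assoc (W g), Matrix.mul_nonsing_inv P hPu, mul_one]

theorem class_iff (hLI : S_LI) (hSYM : S_SYM) (hFOUR : S_FOUR) (hTENS : S_TENS) (hPROJ : S_PROJ)
    (hEXT : S_EXT) (hFO : S_FO) (hMEAS : S_MEAS) {K : Type} [Field K] [NumberField K]
    {E : Type} [Field E] [CharZero E] [IsAlgClosed E] [TopologicalSpace E] [IsTopologicalRing E]
    [T2Space E] {𝓜 : MRep (GK K) E 2 → Prop}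
    (hcont : ∀ W, 𝓜 W → Continuous fun g => (W g : Matrix (Fin 2) (Fin 2) E))
    (htw : TwistClosed 𝓜) {V : MRep (GK K) E 2}
    (hVc : Continuous fun g => (V g : Matrix (Fin 2) (Fin 2) E)) (hV : StrongIrred V) :
    𝓜 V ↔ ∃ W, 𝓜 W ∧ CommonEigenvalue V W := by
  constructor
  · intro h
    refine ⟨V, h, ?_⟩
    have h1 := ((tfae hLI hSYM hFOUR hTENS hPROJ hEXT hFO hMEAS hVc hVc hV).out 0 2).2
    exact h1 ⟨1, continuous_const, ⟨1, one_pos, fun g => by simp⟩, 1, by simp, fun g => by simp⟩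
  · rintro ⟨W, hW, δ, hδ, hd⟩
    obtain ⟨ψ, hψ, ⟨N, hN, hψN⟩, htwist⟩ :=
      main hLI hSYM hFOUR hTENS hPROJ hEXT hFO hMEAS hVc (hcont W hW) hV hδ hd
    refine htw W V (ψ ^ (N - 1)) ⟨?_, N, hN, fun g => ?_⟩ (htwist.symm' hN hψN) hW
    · exact hψ.pow (N - 1)
    · rw [MonoidHom.pow_apply, ← pow_mul, mul_comm, pow_mul, hψN, one_pow]

end Run7.h567.PD
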