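import Pool.Agent.Run7.h567.GO.Iface

/-!
# Project PD (helper567): one Frobenius eigenvalue at a positive proportion of the places

MAIN THEOREM. `K` a number field; `V, W : G_K → GL_2(E)` continuous, `E` an algebraically closed
topological field of characteristic zero (for example the algebraic closure of `ℚ_p`); `V` irreducible on every open
subgroup (for example `V` attached to a modular form without CM, or a non-CM elliptic curve). If the
places `v` at which `V` and `W` have ONE common Frobenius eigenvalue have positive upper density, then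
`W ≅ V ⊗ ψ` for a character `ψ` of finite order. In particular `V` is modular if at a positive
proportion of the places ONE of the two roots of its Frobenius polynomial is a root of the Hecke
polynomial of some modular form. Pages: MP_b583a4_nt (Fontaine-Mazur in dimension two), MP_326854_nt
(modularity of abelian varieties of GL_2-type) and others.

PROOF. Let `t, s` be the traces and `d, e` the determinants of `V(g), W(g)`. There is a common
eigenvalue iff `F(g) = e t² - (d + e) t s + d s² + (d - e)²` is zero. (MEAS, POS: Haar measure and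
Chebotarev) `F` vanishes on a coset `H z` of an open normal subgroup. As
`F = tr(det W ⊗ Sym² V) + tr(det V ⊗ Sym² W) - tr(det V ⊗ V ⊗ W) - tr(det W ⊗ V ⊗ W) + (det V)² + (det W)²`
(LI: linear independence of matrix coefficients) the representation `det W ⊗ Sym² V` of `H`, which is
irreducible (SYM), occurs in `det V ⊗ Sym² W` or in a twist of `V ⊗ W`. In both cases `V` and `W` are twists
of each other on `H` (PROJ; FOUR, TENS), and then on `G_K` (EXT).

All pieces need only Mathlib (except POS). Files `Pool/Agent/Run7/<you>/PD/<PIECE>.lean`, your own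
namespace, `import Pool.Agent.Run7.h567.PD.Iface`, theorem `t_<PIECE> : S_<PIECE>`.
-/

set_option autoImplicit false

namespace Run7.h567.PD

open Matrix Polynomial MeasureTheory Run7.h567.GO

section defs

variable {Γ : Type} [Group Γ] {E : Type} [Field E]

/-- the restriction to a subgroup -/
def res {n : ℕ} (ρ : MRep Γ E n) (H : Subgroup Γ) : MRep H E n := ρ.comp H.subtype

/-- irreducible on every subgroup of finite index -/
def SI {n : ℕ} (ρ : MRep Γ E n) : Prop := ∀ H : Subgroup Γ, H.FiniteIndex → Irred (res ρ H)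

/-- the twist by a character -/
def tw {n : ℕ} (χ : Γ →* E) (ρ : MRep Γ E n) : MRep Γ E n where
  toFun g := χ g • ρ g
  map_one' := by rw [map_one, map_one, one_smul]
  map_mul' g h := by rw [map_mul, map_mul, smul_mul_smul_comm]

/-- the determinant -/
def detR {n : ℕ} (ρ : MRep Γ E n) : Γ →* E where
  toFun g := (ρ g).det
  map_one' := by rw [map_one, Matrix.det_one]
  map_mul' g h := by rw [map_mul, Matrix.det_mul]

/-- the symmetric square of a matrix: the action `X ↦ A X Aᵀ` on the symmetric matrices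
`X = (x z; z y)` with coordinates `(x, z, y)` -/
def sq (A : Matrix (Fin 2) (Fin 2) E) : Matrix (Fin 3) (Fin 3) E :=
  !![A 0 0 ^ 2, 2 * A 0 0 * A 0 1, A 0 1 ^ 2;
     A 0 0 * A 1 0, A 0 0 * A 1 1 + A 0 1 * A 1 0, A 0 1 * A 1 1;
     A 1 0 ^ 2, 2 * A 1 0 * A 1 1, A 1 1 ^ 2]

theorem sq_mul (A B : Matrix (Fin 2) (Fin 2) E) : sq (A * B) = sq A * sq B := by
  ext i j
  fin_cases i <;> fin_cases j <;>
    simp [sq, Matrix.mul_apply, Fin.sum_univ_two, Fin.sum_univ_three] <;> ring

theorem sq_one : sq (1 : Matrix (Fin 2) (Fin 2) E) = 1 := by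
  ext i j
  fin_cases i <;> fin_cases j <;> simp [sq]

/-- the symmetric square of a representation -/
def sym2 (V : MRep Γ E 2) : MRep Γ E 3 where
  toFun g := sq (V g)
  map_one' := by rw [map_one, sq_one]
  map_mul' g h := by rw [map_mul, sq_mul]

/-- `W` is conjugate to `V ⊗ ψ` -/
def TwistOf (V W : MRep Γ E 2) (ψ : Γ →* E) : Prop :=
  ∃ P : Matrix (Fin 2) (Fin 2) E, P.det ≠ 0 ∧ ∀ g, W g * P = ψ g • (P * V g)

/-- `v` is a common eigenvector -/
def HasEigvec {n : ℕ} (T : MRep Γ E n) : Prop :=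
  ∃ (ψ : Γ →* E) (v : Fin n → E), v ≠ 0 ∧ ∀ g, T g *ᵥ v = ψ g • v

/-- `v` is a common eigenvector of the transposed matrices -/
def HasEigcov {n : ℕ} (T : MRep Γ E n) : Prop :=
  ∃ (ψ : Γ →* E) (v : Fin n → E), v ≠ 0 ∧ ∀ g, v ᵥ* T g = ψ g • v

/-- the action of the group algebra -/
noncomputable def alg {n : ℕ} (ρ : MRep Γ E n) :
    MonoidAlgebra E Γ →ₐ[E] Matrix (Fin n) (Fin n) E :=
  MonoidAlgebra.lift E (Matrix (Fin n) (Fin n) E) Γ ρ

/-- `V(g)` and `W(g)` have a common eigenvalue (the resultant of the characteristic polynomials) -/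
def F (V W : MRep Γ E 2) (g : Γ) : E :=
  (W g).det * (V g).trace ^ 2 - ((V g).det + (W g).det) * (V g).trace * (W g).trace +
    (V g).det * (W g).trace ^ 2 + ((V g).det - (W g).det) ^ 2

theorem SI.res {n : ℕ} {ρ : MRep Γ E n} (h : SI ρ) (H : Subgroup Γ) [hH : H.FiniteIndex] :
    SI (PD.res ρ H) := by
  intro K hK
  have h1 : (K.map H.subtype).FiniteIndex := by
    refine ⟨?_⟩
    rw [Subgroup.index_map_subtype]
    exact mul_ne_zero hK.index_ne_zero hH.index_ne_zero
  have h2 := h (K.map H.subtype) h1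
  refine ⟨h2.1, fun U hU => h2.2 U ?_⟩
  rintro ⟨_, k, hk, rfl⟩ u hu
  exact hU ⟨k, hk⟩ u hu

end defs

/-! ## BURN: Burnside's theorem (40-60 lines)

`Pool.Agent.Helper864_WL.Burnside` has it for homomorphisms to `GL (Fin d) k` (or Mathlib: density
theorem). The image of `alg S` is the span of the matrices `S g`. -/

/-- BURN -/
def S_BURN : Prop := ∀ (Γ : Type) [Group Γ] (E : Type) [Field E] [IsAlgClosed E] (n : ℕ)
  (S : MRep Γ E n), Irred S → Function.Surjective (alg S)

/-! ## ANN: constituents (100-140 lines, uses BURN)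

Strong induction on `k`. If `T` is irreducible (`k > 0`): the kernel of `alg T` is contained in the kernel
of `alg S`, so by BURN `alg S` induces a surjective homomorphism `f : M_k(E) → M_n(E)`, which is injective
because `M_k(E)` is simple; so `k = n` (dimensions) and `f` is conjugation by a matrix (Skolem-Noether; or:
`E^n` becomes an irreducible `M_k(E)`-module `M`; for a suitable matrix unit `e_{11}` choose
`w ≠ 0` in `f(e_{11}) E^n`; then `e_i ↦ f(e_{i1}) w` is an isomorphism `E^k → E^n`). If `T = 0` (`k = 0`) then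
`alg T = 0`, so `alg S 1 = 0`, impossible. Otherwise `T` has a stable subspace `U`, not `0` nor everything;
the matrices of `T` on `U` and on the quotient (in bases) are `T₁, T₂` of smaller dimension. If `a₁` kills
`T₁` and `a₂` kills `T₂` then `a₁ * x * a₂` kills `T` for every `x`; if neither
`ker (alg T₁) ⊆ ker (alg S)` nor `ker (alg T₂) ⊆ ker (alg S)` we get `a₁, a₂` with
`alg S a₁ * m * alg S a₂ = 0` for every matrix `m` (BURN), so one of them is zero. A subquotient of a
subquotient is a subquotient (`Run7.h567.GO.CLS.MF.trans` and `MF.subQ` in `GO/CLS.lean`, matrix form of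
`SubQ`). -/

/-- ANN -/
def S_ANN : Prop := ∀ (Γ : Type) [Group Γ] (E : Type) [Field E] [IsAlgClosed E] (n k : ℕ)
  (S : MRep Γ E n) (T : MRep Γ E k), Irred S → (∀ a, alg T a = 0 → alg S a = 0) → SubQ S T

/-! ## LI: linear independence of matrix coefficients (60-80 lines, uses BURN and ANN)

For each `j` there is (ANN) `a j` with `alg (T j) (a j) = 0` and `alg S (a j) ≠ 0`. By BURN there are `b j`
such that `alg S` of the product `a 1 * b 1 * a 2 * b 2 ⋯` is not zero (induction over the finite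
set; `m * x * m' ≠ 0` for some `x` if `m, m' ≠ 0`), so the product `a` kills all the `T j` (it contains
the factor `a j`) and not `S`. Then `x * a * y` for `x, y` in the group algebra: their images
under `alg S` span all matrices (two-sided ideal of `M_n(E)`), and they kill all `T j`. The
hypothesis extends linearly to the group algebra, so `tr(m Z) = 0` for all matrices `m`. -/

/-- LI -/
def S_LI : Prop := ∀ (Γ : Type) [Group Γ] (E : Type) [Field E] [IsAlgClosed E] (n : ℕ)
  (S : MRep Γ E n) (J : ℕ) (k : Fin J → ℕ) (T : ∀ j, MRep Γ E (k j)), Irred S →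
  (∀ j, ¬ SubQ S (T j)) → ∀ (Z : Matrix (Fin n) (Fin n) E)
  (Y : ∀ j, Matrix (Fin (k j)) (Fin (k j)) E),
  (∀ h, (S h * Z).trace = ∑ j, (T j h * Y j).trace) → Z = 0

/-! ## FOUR: dimension four (40-70 lines)

`SubQ S T`: `U ⊆ E^4` stable with a surjection `π : U → E^3`, so `dim U` is `3` or `4`. If `U = E^4` the kernel
of `π` is a stable line. If `dim U = 3` there is a nonzero linear form `v` with kernel `U`; `v ∘ T(g)`
vanishes on `U`, so it is a multiple of `v`. The multiplier is a homomorphism. -/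

/-- FOUR -/
def S_FOUR : Prop := ∀ (Γ : Type) [Group Γ] (E : Type) [Field E] (S : MRep Γ E 3)
  (T : MRep Γ E 4), SubQ S T → HasEigvec T ∨ HasEigcov T

/-! ## TENS: tensor products (80-120 lines)

Write vectors of `E^2 ⊗ E^2` as `2 × 2` matrices `X` (`finProdFinEquiv`); `(V ⊗ W)(g)` is `X ↦ V(g) X W(g)ᵀ`.
Eigenvector: `χ(g) V(g) X W(g)ᵀ = ψ(g) X`, `X ≠ 0` (`χ(g) ≠ 0` because `χ(g) χ(g⁻¹) = 1`). The range of `X` is
`V`-stable and not zero, so `X` is invertible (`Irred V`). So `W(g)ᵀ = (ψ/χ)(g) X⁻¹ V(g)⁻¹ X` and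
`W(g) = (ψ/χ)(g) Xᵀ V(g)⁻ᵀ X⁻ᵀ`, and `V⁻ᵀ = J V J⁻¹ / det V`, `J = (0 1; -1 0)`. Covector:
`χ(g) V(g)ᵀ Y W(g) = ψ(g) Y`; the kernel of `Yᵀ` is `V`-stable, so `Y` is invertible, etc. -/

/-- TENS -/
def S_TENS : Prop := ∀ (Γ : Type) [Group Γ] (E : Type) [Field E] (V W : MRep Γ E 2) (χ : Γ →* E),
  Irred V → (HasEigvec (tw χ (tens V W)) ∨ HasEigcov (tw χ (tens V W))) → ∃ ψ : Γ →* E, TwistOf V W ψ

/-! ## SYM: the symmetric square is irreducible (120-180 lines)

`sym2 V` preserves up to `(det V)²` the quadratic form `q(v) = v 0 * v 2 - (v 1)²` (the determinant of the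
symmetric matrix), so the orthogonal complement (for the nondegenerate bilinear form of `q`) of a stable
subspace is stable; so if `sym2 V` is reducible there is a stable line, spanned by a symmetric matrix
`X ≠ 0`: `V(g) X V(g)ᵀ = ψ(g) X`. If `det X = 0` then `X = a u uᵀ` and the line of `u` is stable, contradiction.
If `det X ≠ 0` then `X = u wᵀ + w uᵀ` with `u, w` independent (`E` algebraically closed: `X⁻¹`, as a quadratic
form, has two isotropic lines, and `V(g)⁻ᵀ` or `V(g)` permutes two lines), and the lines of `u` and `w`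
are permuted; the subgroup fixing the line of `u` has index at most two, and is reducible. The twist by
`χ` has the same stable subspaces. -/

/-- SYM -/
def S_SYM : Prop := ∀ (Γ : Type) [Group Γ] (E : Type) [Field E] [CharZero E] [IsAlgClosed E]
  (V : MRep Γ E 2) (χ : Γ →* E), SI V → Irred (tw χ (sym2 V))

/-! ## PROJ: twists with isomorphic symmetric squares (split in three)

From `SubQ (tw χ (sym2 V)) (tw χ' (sym2 W))` (both of dimension 3) there is an invertible `Φ` with
`c(g) Φ (sq (V g)) = (sq (W g)) Φ`, `c = χ / χ'`.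

PROJ1: `q(Φ v) = λ q(v)`, `λ ≠ 0`. Let `q'(v) = q(Φ v)`; `q(sq(A) v) = (det A)² q(v)`; so
`q'(sq(V g) v) = c(g)⁻² (det W(g))² q'(v)` and `q(sq(V g) v) = (det V(g))² q(v)`. Let `B, B'` be the matrices
of `q, q'` (invertible) and `μ(g) = (det V(g))² c(g)² / (det W(g))²`. For a root `λ` of
`det (B' - λ B)` (a polynomial of degree three, `λ ≠ 0`) also `λ μ(g)` is a root; so `μ` takes at most three
values and its kernel `Γ'` has finite index. On `Γ'` the kernel of `B' - λ B` is stable; it is not zero, so by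
`Irred (sym2 V|Γ')` (hypothesis) it is everything. -/

/-- the quadratic form -/
def q {E : Type} [Field E] (v : Fin 3 → E) : E := v 0 * v 2 - v 1 ^ 2

/-- PROJ1 (100-150 lines) -/
def S_PROJ1 : Prop := ∀ (Γ : Type) [Group Γ] (E : Type) [Field E] [CharZero E] [IsAlgClosed E]
  (V W : MRep Γ E 2) (c : Γ →* E) (Φ : Matrix (Fin 3) (Fin 3) E),
  (∀ H : Subgroup Γ, H.FiniteIndex → Irred (sym2 (res V H))) → Φ.det ≠ 0 →
  (∀ g, c g • (Φ * sq (V g)) = sq (W g) * Φ) → ∃ l : E, l ≠ 0 ∧ ∀ v, q (Φ *ᵥ v) = l * q v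

/-- PROJ2 (80-120 lines): a linear map of the symmetric matrices which multiplies the determinant by a
constant is `X ↦ P X Pᵀ`. Columns `Φ e₀`, `Φ e₂` have `q = 0`, so they are squares `p pᵀ`, `r rᵀ` (`E` is
algebraically closed); `p, r` are independent because `q(Φ(e₀ + e₂)) = l ≠ 0`. Write
`Φ e₁ = a p pᵀ + b r rᵀ + c (p rᵀ + r pᵀ)`. Comparing coefficients in
`q(Φ(x, z, y)) = l (x y - z²)`: `a = b = 0`, `c² = 1`. Change the sign of `r` if `c = -1`. `P = (p r)`. -/
def S_PROJ2 : Prop := ∀ (E : Type) [Field E] [CharZero E] [IsAlgClosed E]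
  (Φ : Matrix (Fin 3) (Fin 3) E) (l : E), l ≠ 0 → (∀ v, q (Φ *ᵥ v) = l * q v) →
  ∃ P : Matrix (Fin 2) (Fin 2) E, P.det ≠ 0 ∧ Φ = sq P

/-- PROJ (60-90 lines, from PROJ1, PROJ2 and SYM: `t_PROJ : S_PROJ1 → S_PROJ2 → S_SYM → S_PROJ`): with `Φ = sq P`: `c(g) sq(P V(g)) = sq(W(g) P)`, so
`sq R = c(g)⁻¹ • 1` (or similar) for `R = (P V(g))⁻¹ W(g) P`, so `R` is a scalar `ψ(g)`; `ψ` is a homomorphism. -/
def S_PROJ : Prop := ∀ (Γ : Type) [Group Γ] (E : Type) [Field E] [CharZero E] [IsAlgClosed E]
  (V W : MRep Γ E 2) (χ χ' : Γ →* E), SI V →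
  SubQ (tw χ (sym2 V)) (tw χ' (sym2 W)) → ∃ ψ : Γ →* E, TwistOf V W ψ

/-! ## EXT: from a subgroup to the group (80-120 lines)

Replace `V` by `P V P⁻¹`: we may suppose `W(h) = ψ(h) V(h)` on `H`. For `g ∈ Γ` let `A = V(g)⁻¹ W(g)`. From
`W(g h g⁻¹) = ψ(g h g⁻¹) V(g h g⁻¹)` we get `A V(h) A⁻¹ = c(h) V(h)` with the homomorphism
`c(h) = ψ(g h g⁻¹) / ψ(h)`, and `c(h)² = 1` (determinants). The kernel `H'` of `c` has index at most two in `H`,
so it has finite index in `Γ`, and `V` is irreducible on it (`SI`); `A` commutes with `V(H')`, so it is a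
scalar (an eigenspace of `A` is stable). -/

/-- EXT -/
def S_EXT : Prop := ∀ (Γ : Type) [Group Γ] (E : Type) [Field E] [CharZero E] [IsAlgClosed E]
  (V W : MRep Γ E 2) (H : Subgroup Γ) [H.Normal] [H.FiniteIndex], SI V →
  (∃ ψ : H →* E, TwistOf (res V H) (res W H) ψ) → ∃ ψ : Γ →* E, TwistOf V W ψ

/-! ## FO: finite order (80-120 lines, uses LI and SYM)

`F` depends only on the traces and determinants, so with `W = ψ V`, `d = det V`, `t² = tr Sym² V + d`:
`F(g) = d (-ψ + 2 ψ² - ψ³) tr(Sym² V)(g) + d² (1 - ψ - ψ³ + ψ⁴)`. For `g = h z` with `h ∈ H` this is a combination of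
`tr(T(h) T(z))` for the representations `d ψ^i ⊗ Sym² V` (`i = 1, 2, 3`) and the characters `d² ψ^i`
(`i = 0, 1, 3, 4`) of `H`. Suppose `ψ` has infinite order on `H`. Then `S = d ψ ⊗ Sym² V` is irreducible on `H`
(SYM; `SI V` gives `SI (res V H)`), and is not a subquotient of the others (determinants: the cubes of `ψ`
and `ψ²`, `ψ³` are different on `H`; dimensions). LI: `d(z) ψ(z) • sq (V z) = 0`, contradiction. So `ψ ^ N = 1` on `H`,
and on `Γ` with another `N` (finite index). -/

/-- FO -/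
def S_FO : Prop := ∀ (Γ : Type) [Group Γ] (E : Type) [Field E] [CharZero E] [IsAlgClosed E]
  (V W : MRep Γ E 2) (ψ : Γ →* E) (H : Subgroup Γ) [H.Normal] [H.FiniteIndex] (z : Γ), SI V →
  TwistOf V W ψ → (∀ h ∈ H, F V W (h * z) = 0) → ∃ N : ℕ, 0 < N ∧ ∀ g, ψ g ^ N = 1

/-! ## MEAS: an algebraic condition on a set of positive measure (100-150 lines)

For an ideal `I` of `A` let `Z(I) = {x | f x = 0 for all f ∈ I}` (closed). Let `I` be a maximal element (Noetherian)
among the ideals containing `f` with `μ (Z(I)) ≠ 0`; it is maximal among ALL ideals with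
`μ (Z(I)) ≠ 0`. For `g ∈ Γ` let `g I` be the ideal of the functions `x ↦ k (g⁻¹ x)`, `k ∈ I`; `Z(g I) = g Z(I)`
has the same measure, and `g I` is maximal too. So if `g I ≠ g' I` then
`μ (g Z(I) ∩ g' Z(I)) = μ (Z(g I + g' I)) = 0`. As `μ` is finite the orbit of `I` is finite
(`μ` of a finite union of almost disjoint sets is the sum). So `S = {g | g I = I} = {g | g Z(I) = Z(I)}` has finite
index, and it is closed (`{g | g Z ⊆ Z}` is an intersection of the closed sets `Z x⁻¹`, `x ∈ Z`), so it is open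
(`Subgroup.isOpen_of_isClosed_of_finiteIndex`). Take `z ∈ Z(I)`. -/

/-- MEAS -/
def S_MEAS : Prop := ∀ (Γ : Type) [Group Γ] [TopologicalSpace Γ] [IsTopologicalGroup Γ]
  [CompactSpace Γ] [T2Space Γ] [MeasurableSpace Γ] [BorelSpace Γ] (μ : Measure Γ)
  [μ.IsHaarMeasure] (E : Type) [Field E] [TopologicalSpace E] [T1Space E]
  (A : Subalgebra E (Γ → E)), IsNoetherianRing A → (∀ f ∈ A, Continuous f) →
  (∀ f ∈ A, ∀ g, (fun x => f (g * x)) ∈ A) → ∀ f ∈ A, μ {x | f x = 0} ≠ 0 →
  ∃ S : Subgroup Γ, IsOpen (S : Set Γ) ∧ ∃ z, ∀ s ∈ S, f (s * z) = 0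

end Run7.h567.PD
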