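import Pool.Agent.Run7.h567.PD.Main

/-!
# Project PD: the converse
-/

set_option autoImplicit false

namespace Run7.h567.PD

open Matrix Polynomial MeasureTheory Run7.h567.GO
open NumberField Filter Topology IsDedekindDomain Pool.Agent.W401.Cheb

variable {K : Type} [Field K] [NumberField K]

theorem dens_add (P : HeightOneSpectrum (𝓞 K) → Prop) (N : ℕ) :
    dens (fun _ : HeightOneSpectrum (𝓞 K) => True) N = dens P N + dens (fun v => ¬ P v) N := by
  have hfin := Pool.Agent.W352.ChAbs.finite_le (K := K) N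
  unfold dens
  rw [← add_div]
  congr 1
  have h1 : ∀ R : HeightOneSpectrum (𝓞 K) → Prop,
      Nat.card {v : HeightOneSpectrum (𝓞 K) // Ideal.absNorm v.asIdeal ≤ N ∧ R v} =
        {v : HeightOneSpectrum (𝓞 K) | Ideal.absNorm v.asIdeal ≤ N ∧ R v}.ncard := fun R => rfl
  rw [h1, h1, h1]
  have h2 : {v : HeightOneSpectrum (𝓞 K) | Ideal.absNorm v.asIdeal ≤ N ∧ True} =
      {v | Ideal.absNorm v.asIdeal ≤ N ∧ P v} ∪ {v | Ideal.absNorm v.asIdeal ≤ N ∧ ¬ P v} := by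
    ext v
    simp only [Set.mem_ofPred_eq, Set.mem_union]
    tauto
  have f1 : {v : HeightOneSpectrum (𝓞 K) | Ideal.absNorm v.asIdeal ≤ N ∧ P v}.Finite :=
    hfin.subset fun v hv => by
      rw [Set.mem_ofPred_eq] at hv ⊢
      exact hv.1
  have f2 : {v : HeightOneSpectrum (𝓞 K) | Ideal.absNorm v.asIdeal ≤ N ∧ ¬ P v}.Finite :=
    hfin.subset fun v hv => by
      rw [Set.mem_ofPred_eq] at hv ⊢
      exact hv.1
  have f3 : Disjoint {v : HeightOneSpectrum (𝓞 K) | Ideal.absNorm v.asIdeal ≤ N ∧ P v}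
      {v | Ideal.absNorm v.asIdeal ≤ N ∧ ¬ P v} := by
    rw [Set.disjoint_left]
    rintro v hv hv'
    rw [Set.mem_ofPred_eq] at hv hv'
    exact hv'.2 hv.2
  rw [h2, Set.ncard_union_eq f3 f1 f2]
  push_cast
  rfl

/-- The places all of whose Frobenius elements are in an open normal subgroup. -/
theorem upper_of_open (U : Subgroup (GK K)) [hn : U.Normal] (hU : IsOpen (U : Set (GK K))) :
    ∃ δ : ℝ, 0 < δ ∧ UpperDensity K δ fun g => g ∈ U := by
  classical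
  have hfin : Finite (GK K ⧸ U) := Subgroup.quotient_finite_of_isOpen _ hU
  have h1 := Pool.Agent.Y142.chebK K U hU Set.univ (fun _ _ _ => trivial) (fun _ _ _ _ => trivial)
  have h2 := Pool.Agent.Y142.chebK K U hU (U : Set (GK K))ᶜ (by
    intro σ hσ τ hτ
    apply hσ
    have := hn.conj_mem _ hτ τ⁻¹
    rw [inv_inv] at this
    have h3 : τ⁻¹ * (τ * σ * τ⁻¹) * τ = σ := by group
    rwa [h3] at this) (by
    intro σ hσ u hu hσu
    apply hσ
    have := U.mul_mem hσu (U.inv_mem hu)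
    rwa [mul_inv_cancel_right] at this)
  set q : ℝ := (Nat.card (GK K ⧸ U) : ℝ) with hq
  have hq0 : 0 < q := by
    rw [hq]
    exact_mod_cast Nat.card_pos
  have h3 : ((QuotientGroup.mk : GK K → GK K ⧸ U) '' Set.univ).ncard =
      Nat.card (GK K ⧸ U) := by
    rw [Set.image_univ, Set.range_eq_univ.2 QuotientGroup.mk_surjective, Set.ncard_univ]
  have h4 : ((QuotientGroup.mk : GK K → GK K ⧸ U) '' (U : Set (GK K))ᶜ).ncard + 1 ≤
      Nat.card (GK K ⧸ U) := by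
    rw [← Set.ncard_univ]
    have h5 : (QuotientGroup.mk : GK K → GK K ⧸ U) '' (U : Set (GK K))ᶜ ⊆ {((1 : GK K) : GK K ⧸ U)}ᶜ := by
      rintro _ ⟨g, hg, rfl⟩ h6
      rw [Set.mem_singleton_iff, eq_comm, QuotientGroup.eq, inv_one, one_mul] at h6
      exact hg h6
    have h6 := Set.ncard_le_ncard h5 (Set.toFinite _)
    have h7 := Set.ncard_add_ncard_compl {((1 : GK K) : GK K ⧸ U)}
    rw [Set.ncard_singleton] at h7
    rw [Set.ncard_univ]
    omega
  refine ⟨1 / (2 * q), by positivity, ?_⟩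
  have h5 : Tendsto (fun N => dens (fun v : HeightOneSpectrum (𝓞 K) =>
      ∃ σ ∈ (Set.univ : Set (GK K)), IsFrob v σ) N -
      dens (fun v : HeightOneSpectrum (𝓞 K) => ∃ σ ∈ (U : Set (GK K))ᶜ, IsFrob v σ) N) atTop
      (𝓝 (((Nat.card (GK K ⧸ U) : ℕ) : ℝ) / q -
        (((QuotientGroup.mk : GK K → GK K ⧸ U) '' (U : Set (GK K))ᶜ).ncard : ℝ) / q)) := by
    have := h1.sub h2
    rw [h3] at this
    exact this
  have h6 : 1 / (2 * q) < ((Nat.card (GK K ⧸ U) : ℕ) : ℝ) / q -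
      (((QuotientGroup.mk : GK K → GK K ⧸ U) '' (U : Set (GK K))ᶜ).ncard : ℝ) / q := by
    have h7 : ((((QuotientGroup.mk : GK K → GK K ⧸ U) '' (U : Set (GK K))ᶜ).ncard : ℕ) : ℝ) + 1 ≤
        ((Nat.card (GK K ⧸ U) : ℕ) : ℝ) := by exact_mod_cast h4
    rw [← sub_div, div_lt_div_iff₀ (by positivity) hq0]
    nlinarith
  refine ((h5.eventually_const_lt h6).frequently).mono fun N hN => ?_
  have h7 := dens_add (fun v : HeightOneSpectrum (𝓞 K) => ∃ σ ∈ (U : Set (GK K))ᶜ, IsFrob v σ) N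
  have h8 : dens (fun v : HeightOneSpectrum (𝓞 K) =>
      ∃ σ ∈ (Set.univ : Set (GK K)), IsFrob v σ) N ≤
      dens (fun _ : HeightOneSpectrum (𝓞 K) => True) N :=
    Pool.Agent.R401.Eng.dens_le (fun _ _ => trivial) N
  have h9 : dens (fun v : HeightOneSpectrum (𝓞 K) =>
      ¬ ∃ σ ∈ (U : Set (GK K))ᶜ, IsFrob v σ) N ≤
      dens (fun v : HeightOneSpectrum (𝓞 K) => ∀ g, IsFrob v g → g ∈ U) N := by
    refine Pool.Agent.R401.Eng.dens_le (fun v hv g hg => ?_) N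
    by_contra hgU
    exact hv ⟨g, hgU, hg⟩
  linarith

theorem tfae (hLI : S_LI) (hSYM : S_SYM) (hFOUR : S_FOUR) (hTENS : S_TENS) (hPROJ : S_PROJ)
    (hEXT : S_EXT) (hFO : S_FO) (hMEAS : S_MEAS)
    {E : Type} [Field E] [CharZero E] [IsAlgClosed E] [TopologicalSpace E] [IsTopologicalRing E]
    [T2Space E] {V W : MRep (GK K) E 2}
    (hVc : Continuous fun g => (V g : Matrix (Fin 2) (Fin 2) E))
    (hWc : Continuous fun g => (W g : Matrix (Fin 2) (Fin 2) E)) (hV : StrongIrred V) :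
    List.TFAE [
      ∃ δ : ℝ, 0 < δ ∧
        UpperDensity K δ fun g => ∃ r, (V g).charpoly.IsRoot r ∧ (W g).charpoly.IsRoot r,
      ∃ δ : ℝ, 0 < δ ∧ UpperDensity K δ fun g => (V g).charpoly = (W g).charpoly,
      ∃ ψ : GK K →* E, Continuous ψ ∧ (∃ N : ℕ, 0 < N ∧ ∀ g, ψ g ^ N = 1) ∧ TwistOf V W ψ] := by
  tfae_have 1 → 3 := by
    rintro ⟨δ, hδ, hd⟩
    exact main hLI hSYM hFOUR hTENS hPROJ hEXT hFO hMEAS hVc hWc hV hδ hd
  tfae_have 3 → 2 := by
    rintro ⟨ψ, hψ, ⟨N, hN, hψN⟩, P, hP, hPW⟩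
    have hker : IsOpen (ψ.ker : Set (GK K)) := by
      have h1 : ((ψ.ker : Set (GK K)))ᶜ = ψ ⁻¹' ({x : E | x ^ N = 1} \ {1}) := by
        ext g
        rw [Set.mem_compl_iff, SetLike.mem_coe, MonoidHom.mem_ker, Set.mem_preimage, Set.mem_sdiff,
          Set.mem_singleton_iff, Set.mem_ofPred_eq]
        exact ⟨fun h => ⟨hψN g, h⟩, fun h => h.2⟩
      have h2 : ({x : E | x ^ N = 1} \ {1}).Finite := by
        refine Set.Finite.subset (nthRootsFinset N (1 : E)).finite_toSet ?_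
        rintro x ⟨hx, -⟩
        rw [Set.mem_ofPred_eq] at hx
        exact Finset.mem_coe.2 ((mem_nthRootsFinset hN 1).2 hx)
      rw [← isClosed_compl_iff, h1]
      exact h2.isClosed.preimage hψ
    obtain ⟨δ, hδ, hd⟩ := upper_of_open ψ.ker hker
    refine ⟨δ, hδ, hd.mono fun n hn => hn.trans (Pool.Agent.R401.Eng.dens_le ?_ n)⟩
    intro v hv g hg
    have h1 : ψ g = 1 := hv g hg
    have h2 := hPW g
    rw [h1, one_smul] at h2
    have h3 : W g = P * V g * P⁻¹ := by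
      rw [← h2, mul_assoc, Matrix.mul_nonsing_inv P (isUnit_iff_ne_zero.2 hP), mul_one]
    rw [h3, charpoly_conj (Matrix.nonsing_inv_mul P (isUnit_iff_ne_zero.2 hP))]
  tfae_have 2 → 1 := by
    rintro ⟨δ, hδ, hd⟩
    refine ⟨δ, hδ, hd.mono fun n hn => hn.trans (Pool.Agent.R401.Eng.dens_le ?_ n)⟩
    intro v hv g hg
    obtain ⟨r, hr⟩ := IsAlgClosed.exists_root (V g).charpoly (by
      rw [Matrix.charpoly_degree_eq_dim]
      simp)
    exact ⟨r, hr, hv g hg ▸ hr⟩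
  tfae_finish

end Run7.h567.PD
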