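import Pool.Agent.Run7.h567.GO.Cheb
import Pool.Agent.Y142.Split

/-!
# Project PD: positive upper density and Haar measure
-/

set_option autoImplicit false

namespace Run7.h567.PD

open NumberField Filter Topology IsDedekindDomain Pool.Agent.W401.Cheb MeasureTheory
open Run7.h567.GO
open scoped Pointwise

variable {K : Type} [Field K] [NumberField K]

/-- A closed set, invariant under conjugation, which contains the Frobenius elements at a set of
places of positive upper density, has positive Haar measure. -/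
theorem pos [MeasurableSpace (GK K)] [BorelSpace (GK K)] (μ : Measure (GK K)) [μ.IsHaarMeasure]
    [μ.Regular] (C : Set (GK K)) (hC : IsClosed C) (hconj : ∀ g ∈ C, ∀ x, x * g * x⁻¹ ∈ C)
    {δ : ℝ} (hδ : 0 < δ)
    (hd : ∃ᶠ N : ℕ in atTop,
      δ ≤ dens (fun v : HeightOneSpectrum (𝓞 K) => ∀ g, IsFrob v g → g ∈ C) N) :
    μ C ≠ 0 := by
  classical
  intro h0
  have huniv : μ Set.univ ≠ ⊤ := measure_ne_top μ _
  have huniv0 : μ Set.univ ≠ 0 := (isOpen_univ.measure_pos μ Set.univ_nonempty).ne'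
  have hr : μ C < ENNReal.ofReal (δ / 2) * μ Set.univ := by
    rw [h0]
    exact ENNReal.mul_pos (ENNReal.ofReal_pos.2 (half_pos hδ)).ne' huniv0
  obtain ⟨O, hCO, hO, hOlt⟩ := Set.exists_isOpen_lt_of_lt C _ hr
  obtain ⟨V, hV, hCV⟩ := compact_open_separated_mul_right hC.isCompact hO hCO
  obtain ⟨V', hV'V, hV'o, h1V'⟩ := mem_nhds_iff.1 hV
  obtain ⟨U, hU⟩ := ProfiniteGrp.exist_openNormalSubgroup_sub_open_nhds_of_one hV'o h1V'
  set U' : Subgroup (GK K) := (U : Subgroup (GK K)) with hU'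
  have hfin : Finite (GK K ⧸ U') := Subgroup.quotient_finite_of_isOpen _ U.isOpen'
  have : Fintype (GK K ⧸ U') := Fintype.ofFinite _
  set CU : Set (GK K) := {g | ∃ c ∈ C, c⁻¹ * g ∈ U'} with hCU
  have hCUO : CU ⊆ O := by
    rintro g ⟨c, hc, hcg⟩
    apply hCV
    refine ⟨c, hc, c⁻¹ * g, hV'V (hU hcg), ?_⟩
    exact mul_inv_cancel_left c g
  have hnorm : U'.Normal := U.isNormal'
  have hcheb := Pool.Agent.Y142.chebK K U' U.isOpen' CU (by
    rintro g ⟨c, hc, hcg⟩ τ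
    refine ⟨τ * c * τ⁻¹, hconj c hc τ, ?_⟩
    have h1 : (τ * c * τ⁻¹)⁻¹ * (τ * g * τ⁻¹) = τ * (c⁻¹ * g) * τ⁻¹ := by group
    rw [h1]
    exact hnorm.conj_mem _ hcg τ) (by
    rintro g ⟨c, hc, hcg⟩ u hu
    refine ⟨c, hc, ?_⟩
    rw [← mul_assoc]
    exact U'.mul_mem hcg hu)
  have hle : ∃ᶠ N : ℕ in atTop,
      δ ≤ dens (fun v : HeightOneSpectrum (𝓞 K) => ∃ σ ∈ CU, IsFrob v σ) N := by
    refine hd.mono fun N hN => hN.trans ?_
    refine Pool.Agent.R401.Eng.dens_le (fun v hv => ?_) N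
    obtain ⟨σ, hσ⟩ := (Pool.Agent.W401.Frob.main K).1 v
    exact ⟨σ, ⟨σ, hv σ hσ, by rw [inv_mul_cancel]; exact U'.one_mem⟩, hσ⟩
  have hlim := ge_of_tendsto_of_frequently hcheb hle
  -- measures
  have hfib : ∀ q : GK K ⧸ U', μ ((QuotientGroup.mk : GK K → GK K ⧸ U') ⁻¹' {q}) =
      μ (U' : Set (GK K)) := by
    intro q
    obtain ⟨g, rfl⟩ := QuotientGroup.mk_surjective q
    have h1 : (QuotientGroup.mk : GK K → GK K ⧸ U') ⁻¹' {(g : GK K ⧸ U')} =
        (fun x => g⁻¹ * x) ⁻¹' (U' : Set (GK K)) := by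
      ext x
      rw [Set.mem_preimage, Set.mem_singleton_iff, eq_comm, QuotientGroup.eq]
      rfl
    rw [h1, measure_preimage_mul]
  have hmeas : ∀ q : GK K ⧸ U', MeasurableSet ((QuotientGroup.mk : GK K → GK K ⧸ U') ⁻¹' {q}) := by
    intro q
    obtain ⟨g, rfl⟩ := QuotientGroup.mk_surjective q
    have h1 : (QuotientGroup.mk : GK K → GK K ⧸ U') ⁻¹' {(g : GK K ⧸ U')} =
        (fun x => g⁻¹ * x) ⁻¹' (U' : Set (GK K)) := by
      ext x
      rw [Set.mem_preimage, Set.mem_singleton_iff, eq_comm, QuotientGroup.eq]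
      rfl
    rw [h1]
    exact (U.isOpen'.preimage (continuous_const_mul g⁻¹)).measurableSet
  have hunion : ∀ S : Finset (GK K ⧸ U'),
      μ (⋃ q ∈ S, (QuotientGroup.mk : GK K → GK K ⧸ U') ⁻¹' {q}) = S.card * μ (U' : Set (GK K)) := by
    intro S
    rw [measure_biUnion_finset _ fun q _ => hmeas q, Finset.sum_congr rfl fun q _ => hfib q,
      Finset.sum_const, nsmul_eq_mul]
    intro q _ q' _ hqq'
    exact Disjoint.preimage _ (Set.disjoint_singleton.2 hqq')
  have htot : μ Set.univ = (Nat.card (GK K ⧸ U')) * μ (U' : Set (GK K)) := by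
    rw [Nat.card_eq_fintype_card, ← Finset.card_univ, ← hunion]
    congr 1
    ext x
    simp
  set T : Finset (GK K ⧸ U') := ((QuotientGroup.mk : GK K → GK K ⧸ U') '' CU).toFinset with hT
  have hTc : (T.card : ℝ) = (((QuotientGroup.mk : GK K → GK K ⧸ U') '' CU).ncard : ℝ) := by
    rw [Set.ncard_eq_toFinset_card']
  have hCUm : (T.card : ENNReal) * μ (U' : Set (GK K)) ≤ μ O := by
    rw [← hunion]
    apply measure_mono
    refine subset_trans ?_ hCUO
    intro x hx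
    rw [Set.mem_iUnion₂] at hx
    obtain ⟨q, hq, hxq⟩ := hx
    rw [hT, Set.mem_toFinset] at hq
    obtain ⟨g, ⟨c, hc, hcg⟩, rfl⟩ := hq
    rw [Set.mem_preimage, Set.mem_singleton_iff, eq_comm, QuotientGroup.eq] at hxq
    refine ⟨c, hc, ?_⟩
    have h1 : c⁻¹ * x = (c⁻¹ * g) * (g⁻¹ * x) := by group
    rw [h1]
    exact U'.mul_mem hcg hxq
  have hlt := hCUm.trans_lt hOlt
  rw [htot] at hlt
  have hUt : μ (U' : Set (GK K)) ≠ ⊤ := measure_ne_top μ _
  have hlt2 : (T.card : ℝ) * (μ (U' : Set (GK K))).toReal <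
      δ / 2 * ((Nat.card (GK K ⧸ U')) * (μ (U' : Set (GK K))).toReal) := by
    have h1 := (ENNReal.toReal_lt_toReal (ENNReal.mul_ne_top (ENNReal.natCast_ne_top _) hUt)
      (ENNReal.mul_ne_top ENNReal.ofReal_ne_top
        (ENNReal.mul_ne_top (ENNReal.natCast_ne_top _) hUt))).2 hlt
    rw [ENNReal.toReal_mul, ENNReal.toReal_mul, ENNReal.toReal_mul, ENNReal.toReal_natCast,
      ENNReal.toReal_natCast, ENNReal.toReal_ofReal (half_pos hδ).le] at h1
    exact h1
  have hm0 : 0 ≤ (μ (U' : Set (GK K))).toReal := ENNReal.toReal_nonneg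
  have hcard0 : (0 : ℝ) < Nat.card (GK K ⧸ U') := by
    exact_mod_cast Nat.card_pos
  rw [le_div_iff₀ hcard0, ← hTc] at hlim
  have h5 : δ * (Nat.card (GK K ⧸ U')) * (μ (U' : Set (GK K))).toReal ≤
      (T.card : ℝ) * (μ (U' : Set (GK K))).toReal := mul_le_mul_of_nonneg_right hlim hm0
  have h6 : 0 ≤ δ * (Nat.card (GK K ⧸ U')) * (μ (U' : Set (GK K))).toReal := by positivity
  nlinarith

end Run7.h567.PD
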