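import Pool.Agent.Run7.h567.PD.Abs
import Pool.Agent.Run7.h567.PD.POS

/-!
# Project PD: the main theorem from the pieces
-/

set_option autoImplicit false

namespace Run7.h567.PD

open Matrix Polynomial MeasureTheory Run7.h567.GO
open NumberField Filter Topology IsDedekindDomain Pool.Agent.W401.Cheb

/-- The representation is irreducible on every open subgroup. -/
def StrongIrred {Γ : Type} [Group Γ] [TopologicalSpace Γ] {E : Type} [Field E] {n : ℕ}
    (V : MRep Γ E n) : Prop :=
  ∀ H : Subgroup Γ, IsOpen (H : Set Γ) → Irred (res V H)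

section si

variable {Γ : Type} [Group Γ] [TopologicalSpace Γ] [IsTopologicalGroup Γ] {E : Type} [Field E]
  [TopologicalSpace E] [IsTopologicalRing E] [T2Space E] {n : ℕ}

theorem isClosed_submodule (U : Submodule E (Fin n → E)) : IsClosed (U : Set (Fin n → E)) := by
  obtain ⟨W, hW⟩ := U.exists_isCompl
  have h1 : (U : Set (Fin n → E)) =
      (W.subtype ∘ₗ W.projectionOnto U hW.symm) ⁻¹' {0} := by
    ext v
    rw [Set.mem_preimage, Set.mem_singleton_iff, SetLike.mem_coe, LinearMap.comp_apply,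
      Submodule.subtype_apply, Submodule.coe_eq_zero, Submodule.projectionOnto_apply_eq_zero_iff]
  rw [h1]
  exact isClosed_singleton.preimage (LinearMap.continuous_on_pi _)

theorem si_of_strong {V : MRep Γ E n}
    (hV : Continuous fun g => (V g : Matrix (Fin n) (Fin n) E)) (h : StrongIrred V) : SI V := by
  intro H hH
  refine ⟨(h ⊤ isOpen_univ).1, fun U hU => ?_⟩
  let K : Subgroup Γ :=
    { carrier := {g | (∀ u ∈ U, V g *ᵥ u ∈ U) ∧ ∀ u ∈ U, V g⁻¹ *ᵥ u ∈ U}
      mul_mem' := by
        rintro a b ⟨ha, ha'⟩ ⟨hb, hb'⟩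
        refine ⟨fun u hu => ?_, fun u hu => ?_⟩
        · rw [map_mul, ← Matrix.mulVec_mulVec]
          exact ha _ (hb u hu)
        · rw [_root_.mul_inv_rev, map_mul, ← Matrix.mulVec_mulVec]
          exact hb' _ (ha' u hu)
      one_mem' := by
        refine ⟨fun u hu => ?_, fun u hu => ?_⟩
        · rw [map_one, Matrix.one_mulVec]
          exact hu
        · rw [inv_one, map_one, Matrix.one_mulVec]
          exact hu
      inv_mem' := by
        rintro a ⟨ha, ha'⟩
        refine ⟨ha', ?_⟩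
        rw [inv_inv]
        exact ha }
  have hHK : H ≤ K := by
    intro g hg
    exact ⟨fun u hu => hU ⟨g, hg⟩ u hu, fun u hu => hU ⟨g⁻¹, H.inv_mem hg⟩ u hu⟩
  have hKf : K.FiniteIndex := Subgroup.finiteIndex_of_le hHK
  have hKc : IsClosed (K : Set Γ) := by
    have h1 : (K : Set Γ) = (⋂ u ∈ U, {g | V g *ᵥ u ∈ U}) ∩ ⋂ u ∈ U, {g | V g⁻¹ *ᵥ u ∈ U} := by
      ext g
      simp only [Set.mem_inter_iff, Set.mem_iInter, Set.mem_ofPred_eq]
      rfl
    rw [h1]
    have hc : ∀ u : Fin n → E, Continuous fun g => V g *ᵥ u := fun u =>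
      hV.matrix_mulVec continuous_const
    refine IsClosed.inter ?_ ?_
    · exact isClosed_biInter fun u _ => (isClosed_submodule U).preimage (hc u)
    · exact isClosed_biInter fun u _ =>
        (isClosed_submodule U).preimage ((hc u).comp continuous_inv)
  have hKo : IsOpen (K : Set Γ) := K.isOpen_of_isClosed_of_finiteIndex hKc
  exact (h K hKo).2 U fun g u hu => g.2.1 u hu

end si

section roots

variable {Γ : Type} [Group Γ] {E : Type} [Field E]

theorem F_of_root {V W : MRep Γ E 2} {g : Γ} {r : E} (h1 : (V g).charpoly.IsRoot r)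
    (h2 : (W g).charpoly.IsRoot r) : F V W g = 0 := by
  rw [Matrix.charpoly_fin_two] at h1 h2
  simp only [IsRoot.def, eval_add, eval_sub, eval_pow, eval_mul, eval_X, eval_C] at h1 h2
  unfold F
  have e1 : (V g).det = (V g).trace * r - r ^ 2 := by linear_combination h1
  have e2 : (W g).det = (W g).trace * r - r ^ 2 := by linear_combination h2
  rw [e1, e2]
  ring

end roots

/-- Upper density at least `δ` for the places whose Frobenius elements satisfy `P`. -/
def UpperDensity (K : Type) [Field K] [NumberField K] (δ : ℝ) (P : GK K → Prop) : Prop :=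
  ∃ᶠ N : ℕ in atTop,
    δ ≤ dens (fun v : HeightOneSpectrum (𝓞 K) => ∀ g, IsFrob v g → P g) N

theorem main (hLI : S_LI) (hSYM : S_SYM) (hFOUR : S_FOUR) (hTENS : S_TENS) (hPROJ : S_PROJ)
    (hEXT : S_EXT) (hFO : S_FO) (hMEAS : S_MEAS) {K : Type} [Field K] [NumberField K]
    {E : Type} [Field E] [CharZero E] [IsAlgClosed E] [TopologicalSpace E] [IsTopologicalRing E]
    [T2Space E] {V W : MRep (GK K) E 2}
    (hVc : Continuous fun g => (V g : Matrix (Fin 2) (Fin 2) E))
    (hWc : Continuous fun g => (W g : Matrix (Fin 2) (Fin 2) E)) (hV : StrongIrred V)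
    {δ : ℝ} (hδ : 0 < δ)
    (hd : UpperDensity K δ fun g => ∃ r, (V g).charpoly.IsRoot r ∧ (W g).charpoly.IsRoot r) :
    ∃ ψ : GK K →* E, Continuous ψ ∧ (∃ N : ℕ, 0 < N ∧ ∀ g, ψ g ^ N = 1) ∧ TwistOf V W ψ := by
  have hSI : SI V := si_of_strong hVc hV
  let _ : MeasurableSpace (GK K) := borel _
  have _ : BorelSpace (GK K) := ⟨rfl⟩
  let μ : Measure (GK K) := Measure.haar
  have hFcont : Continuous (F V W) := bigAlg_continuous V W hVc hWc _ (F_mem V W)
  have hpos : μ {g | F V W g = 0} ≠ 0 := by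
    refine pos μ _ (isClosed_singleton.preimage hFcont) ?_ hδ (hd.mono fun N hN => hN.trans ?_)
    · intro g hg x
      rw [Set.mem_ofPred_eq] at hg ⊢
      have h1 : ∀ T : MRep (GK K) E 2, (T (x * g * x⁻¹)).trace = (T g).trace := by
        intro T
        rw [map_mul, map_mul, Matrix.trace_mul_comm, ← mul_assoc, ← map_mul, inv_mul_cancel,
          map_one, one_mul]
      have h2 : ∀ T : MRep (GK K) E 2, (T (x * g * x⁻¹)).det = (T g).det := by
        intro T
        rw [map_mul, map_mul, Matrix.det_mul, Matrix.det_mul, mul_right_comm, ← Matrix.det_mul,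
          ← map_mul, mul_inv_cancel, map_one, Matrix.det_one, one_mul]
      unfold F at hg ⊢
      rw [h1, h1, h2, h2]
      exact hg
    · refine Pool.Agent.R401.Eng.dens_le (fun v hv g hg => ?_) N
      obtain ⟨r, h1, h2⟩ := hv g hg
      exact F_of_root h1 h2
  obtain ⟨S, hSo, z, hS⟩ := hMEAS (GK K) μ E (bigAlg V W) (bigAlg_noetherian V W)
    (bigAlg_continuous V W hVc hWc) (bigAlg_translate V W) (F V W) (F_mem V W) hpos
  have hSfin : Finite (GK K ⧸ S) := Subgroup.quotient_finite_of_isOpen S hSo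
  have hSf : S.FiniteIndex := Subgroup.finiteIndex_of_finite_quotient
  have hHF : ∀ h ∈ S.normalCore, F V W (h * z) = 0 := fun h hh => hS h (S.normalCore_le hh)
  obtain ⟨ψ, hψ⟩ := hEXT (GK K) E V W S.normalCore hSI
    (twist_of_coset hLI hSYM hFOUR hTENS hPROJ V W S.normalCore z hSI hHF)
  refine ⟨ψ, ?_, hFO (GK K) E V W ψ S.normalCore z hSI hψ hHF, hψ⟩
  obtain ⟨P, hP, hPW⟩ := hψ
  have h1 : ∀ g, ψ g = (W g * P * V g⁻¹ * P⁻¹) 0 0 := by
    intro g
    have h2 : V g * V g⁻¹ = 1 := by rw [← map_mul, mul_inv_cancel, map_one]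
    rw [hPW, smul_mul_assoc, smul_mul_assoc, mul_assoc P, h2, mul_one,
      Matrix.mul_nonsing_inv P (isUnit_iff_ne_zero.2 hP)]
    simp
  have h2 : (ψ : GK K → E) = fun g => (W g * P * V g⁻¹ * P⁻¹) 0 0 := funext h1
  rw [h2]
  have h3 : Continuous fun g => W g * P * V g⁻¹ * P⁻¹ :=
    ((hWc.matrix_mul continuous_const).matrix_mul (hVc.comp continuous_inv)).matrix_mul
      continuous_const
  exact h3.matrix_elem 0 0

end Run7.h567.PD
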